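import Pool.Agent.T9h44.LG.Spec

/-!
# Project LG: (REC). Author: helper89.
-/

set_option autoImplicit false

namespace Pool.Agent.T9h89.LG

open MeasureTheory Real Pool.Agent.T9h44.LG
open scoped ENNReal ComplexConjugate

section meas

theorem meas_ee : Measurable ee := by
  have : Continuous ee := by unfold ee; fun_prop
  exact this.measurable

theorem meas_qq : Measurable qq := by
  unfold qq
  fun_prop

theorem meas_psi3 : Measurable psi3 := by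
  unfold psi3
  fun_prop

theorem meas_om : Measurable om := by
  unfold om
  fun_prop

theorem meas_Wt (α s ρ : ℝ) : Measurable (Wt α s ρ) := by
  have h := meas_om
  unfold Wt
  fun_prop

variable {G : ℝ × ℝ → ℂ}

theorem meas_ExtU (hG : Measurable G) :
    Measurable (fun x : ℝ × (ℝ × ℝ) => Ext (Uo x.1 G) x.2) := by
  have h1 := meas_ee
  have h2 := meas_qq
  have h : Measurable (fun y : (ℝ × (ℝ × ℝ)) × (ℝ × ℝ) =>
      ee (y.1.2.1 * y.2.1 + y.1.2.2 * y.2.2) * (ee (y.1.1 * qq y.2) * G y.2)) := by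
    fun_prop
  exact (h.stronglyMeasurable.integral_prod_right).measurable

theorem meas_sqU (hG : Measurable G) :
    Measurable (fun x : ℝ × (ℝ × ℝ) => sq (Uo x.1 G) x.2) :=
  (meas_ExtU hG).enorm.pow_const 2

theorem meas_conv {W : ℝ × ℝ → ℝ} (h1 : Measurable W) {u : ℝ → ℝ × ℝ → ℝ≥0∞}
    (hu : Measurable (fun x : ℝ × (ℝ × ℝ) => u x.1 x.2)) :
    Measurable (fun x : ℝ × (ℝ × ℝ) =>
      ∫⁻ z' : ℝ × ℝ, ENNReal.ofReal (W (x.2 - z')) * u x.1 z') := by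
  have h2 : Measurable (fun y : (ℝ × (ℝ × ℝ)) × (ℝ × ℝ) => ENNReal.ofReal (W (y.1.2 - y.2))) :=
    (h1.comp ((measurable_snd.comp measurable_fst).sub measurable_snd)).ennreal_ofReal
  have h3 : Measurable (fun y : (ℝ × (ℝ × ℝ)) × (ℝ × ℝ) => u y.1.1 y.2) :=
    hu.comp ((measurable_fst.comp measurable_fst).prodMk measurable_snd)
  have h4 : Measurable (fun y : (ℝ × (ℝ × ℝ)) × (ℝ × ℝ) =>
      ENNReal.ofReal (W (y.1.2 - y.2)) * u y.1.1 y.2) := h2.mul h3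
  exact h4.lintegral_prod_right'

theorem meas_AvU (hG : Measurable G) (α s ρ : ℝ) :
    Measurable (fun x : ℝ × (ℝ × ℝ) => Av α s ρ (sq (Uo x.1 G)) x.2) :=
  meas_conv (u := fun γ => sq (Uo γ G)) (meas_Wt α s ρ) (meas_sqU hG)

/-- the functional of a frame at a time -/
noncomputable def fn (α s ρ : ℝ) (G : ℝ × ℝ → ℂ) (γ : ℝ) : ℝ≥0∞ :=
  ∫⁻ z : ℝ × ℝ, Av α s ρ (sq (Uo γ G)) z ^ 2

theorem meas_fn (hG : Measurable G) (α s ρ : ℝ) : Measurable (fn α s ρ G) :=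
  ((meas_AvU hG α s ρ).pow_const 2).lintegral_prod_right'

end meas

section wid

theorem wid_zero {x : ℝ} (h : wid x ≠ 0) : |x| ≤ 8 := by
  by_contra hcon
  push Not at hcon
  apply h
  rw [wid]
  rcases lt_abs.1 hcon with h1 | h1
  · rw [Real.smoothTransition.zero_of_nonpos (by linarith), zero_mul]
  · rw [Real.smoothTransition.zero_of_nonpos (x := 8 + x) (by linarith), mul_zero]

theorem wid_bd (x : ℝ) : |wid x| ≤ 1 := by
  rw [wid, abs_mul]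
  have h1 : |Real.smoothTransition (8 - x)| ≤ 1 := by
    rw [abs_of_nonneg (Real.smoothTransition.nonneg _)]
    exact Real.smoothTransition.le_one _
  have h2 : |Real.smoothTransition (8 + x)| ≤ 1 := by
    rw [abs_of_nonneg (Real.smoothTransition.nonneg _)]
    exact Real.smoothTransition.le_one _
  exact mul_le_one₀ h1 (abs_nonneg _) h2

theorem meas_wid : Measurable wid := by
  have h : Continuous Real.smoothTransition := Real.smoothTransition.continuous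
  have : Continuous wid := by
    unfold wid
    fun_prop
  exact this.measurable

theorem meas_al : Measurable al := by
  unfold al
  fun_prop

theorem Gw_nice {G : ℝ × ℝ → ℂ} (h : Nice G) (k : ℕ) (j : ℤ) : Nice (Gw k j G) := by
  obtain ⟨h1, ⟨B, hB⟩, r, hr⟩ := h
  refine ⟨?_, ⟨B, fun ζ => ?_⟩, r, fun ζ hζ => ?_⟩
  · have h2 := meas_wid
    have h3 := meas_al
    unfold Gw
    fun_prop
  · rw [Gw, norm_mul, Complex.norm_real, Real.norm_eq_abs]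
    calc |wid (2 ^ k * al ζ - j)| * ‖G ζ‖ ≤ 1 * ‖G ζ‖ :=
          mul_le_mul_of_nonneg_right (wid_bd _) (norm_nonneg _)
      _ ≤ B := by rw [one_mul]; exact hB ζ
  · apply hr
    intro h0
    apply hζ
    rw [Gw, h0, mul_zero]

theorem Gw_supp {G : ℝ × ℝ → ℂ} {k : ℕ} {j : ℤ} {ζ : ℝ × ℝ} (h : Gw k j G ζ ≠ 0) :
    G ζ ≠ 0 ∧ |2 ^ k * al ζ - j| ≤ 8 := by
  rw [Gw] at h
  exact ⟨right_ne_zero_of_mul h, wid_zero (by
    have := left_ne_zero_of_mul h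
    exact_mod_cast this)⟩

theorem Gw_Uo (k : ℕ) (j : ℤ) (γ : ℝ) (G : ℝ × ℝ → ℂ) : Gw k j (Uo γ G) = Uo γ (Gw k j G) := by
  funext ζ
  rw [Gw, Uo, Uo, Gw]
  ring

/-- the frame change preserves the class -/
theorem fr_cls {δ : ℝ} {G : ℝ × ℝ → ℂ} (h : Cls δ G) (k : ℕ) (j : ℤ)
    (hn : Nice (fr (j / 2 ^ k) (1 / 2 ^ k) (Gw k j G))) :
    Cls δ (fr (j / 2 ^ k) (1 / 2 ^ k) (Gw k j G)) := by
  refine ⟨hn, fun ζ hζ => ?_⟩
  rw [fr] at hζ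
  obtain ⟨h1, h2⟩ := Gw_supp hζ
  obtain ⟨h3, h4, -⟩ := h.2 _ h1
  refine ⟨h3, h4, ?_⟩
  simp only at h3 h4
  have h0 : 0 < ζ.1 := by linarith
  have h5 : (2 : ℝ) ^ k * al (ζ.1, ζ.1 * (j / 2 ^ k) + 1 / 2 ^ k * ζ.2) - j = ζ.2 / ζ.1 := by
    have h6 : (2 : ℝ) ^ k ≠ 0 := by positivity
    rw [al]
    simp only
    field_simp
    ring
  rw [h5, abs_div, abs_of_pos h0, div_le_iff₀ h0] at h2
  exact h2

end wid

section small

theorem om_le {x ρ : ℝ} (h0 : 0 < ρ) (h1 : ρ ≤ 1) : om (x / ρ) ≤ om x := by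
  unfold om
  apply inv_anti₀ (by positivity)
  apply pow_le_pow_left₀ (by positivity)
  have : x ^ 2 ≤ (x / ρ) ^ 2 := by
    rw [div_pow, le_div_iff₀ (by positivity)]
    have h2 : ρ ^ 2 ≤ 1 := pow_le_one₀ h0.le h1
    nlinarith [sq_nonneg x]
  linarith

theorem om_nonneg (x : ℝ) : 0 ≤ om x := by unfold om; positivity

theorem Wt_le {ρ : ℝ} (h0 : (4 ^ 4 : ℝ)⁻¹ ≤ ρ) (h1 : ρ ≤ 1) (z : ℝ × ℝ) :
    Wt 0 1 ρ z ≤ 4 ^ 8 * Wt 0 1 1 z := by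
  have hρ : 0 < ρ := lt_of_lt_of_le (by positivity) h0
  have h2 : 1 / ρ ^ 2 ≤ 4 ^ 8 := by
    rw [div_le_iff₀ (by positivity)]
    have h3 : ((4 ^ 4 : ℝ)⁻¹) ^ 2 ≤ ρ ^ 2 := pow_le_pow_left₀ (by positivity) h0 2
    have h4 : (4 : ℝ) ^ 8 * ((4 ^ 4 : ℝ)⁻¹) ^ 2 = 1 := by norm_num
    nlinarith
  have h3 : om (z.1 / ρ) * om (z.2 / ρ) ≤ om z.1 * om z.2 :=
    mul_le_mul (om_le hρ h1) (om_le hρ h1) (om_nonneg _) (om_nonneg _)
  unfold Wt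
  simp only [zero_mul, add_zero, one_mul, div_one, one_pow]
  exact mul_le_mul h2 h3 (mul_nonneg (om_nonneg _) (om_nonneg _)) (by norm_num)

theorem fn_le {ρ : ℝ} (h0 : (4 ^ 4 : ℝ)⁻¹ ≤ ρ) (h1 : ρ ≤ 1) (G : ℝ × ℝ → ℂ) (γ : ℝ) :
    fn 0 1 ρ G γ ≤ ENNReal.ofReal (4 ^ 16) * fn 0 1 1 G γ := by
  unfold fn
  rw [← lintegral_const_mul' _ _ ENNReal.ofReal_ne_top]
  refine lintegral_mono fun z => ?_
  have h2 : Av 0 1 ρ (sq (Uo γ G)) z ≤ ENNReal.ofReal (4 ^ 8) * Av 0 1 1 (sq (Uo γ G)) z := by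
    unfold Av
    rw [← lintegral_const_mul' _ _ ENNReal.ofReal_ne_top]
    refine lintegral_mono fun z' => ?_
    rw [← mul_assoc, ← ENNReal.ofReal_mul (by norm_num)]
    gcongr
    exact Wt_le h0 h1 _
  calc Av 0 1 ρ (sq (Uo γ G)) z ^ 2 ≤ (ENNReal.ofReal (4 ^ 8) * Av 0 1 1 (sq (Uo γ G)) z) ^ 2 := by
        gcongr
    _ = ENNReal.ofReal (4 ^ 16) * Av 0 1 1 (sq (Uo γ G)) z ^ 2 := by
        rw [mul_pow, ← ENNReal.ofReal_pow (by norm_num)]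
        norm_num

theorem TT_eq (ρ R : ℝ) (G : ℝ × ℝ → ℂ) :
    TT ρ R G = ∫⁻ γ : ℝ, ENNReal.ofReal (psi3 (γ / R)) * fn 0 1 ρ G γ := rfl

theorem TT_le {ρ : ℝ} (h0 : (4 ^ 4 : ℝ)⁻¹ ≤ ρ) (h1 : ρ ≤ 1) (R : ℝ) (G : ℝ × ℝ → ℂ) :
    TT ρ R G ≤ ENNReal.ofReal (4 ^ 16) * TT 1 R G := by
  rw [TT_eq, TT_eq, ← lintegral_const_mul' _ _ ENNReal.ofReal_ne_top]
  refine lintegral_mono fun γ => ?_
  calc ENNReal.ofReal (psi3 (γ / R)) * fn 0 1 ρ G γ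
      ≤ ENNReal.ofReal (psi3 (γ / R)) * (ENNReal.ofReal (4 ^ 16) * fn 0 1 1 G γ) := by
        gcongr
        exact fn_le h0 h1 G γ
    _ = _ := by ring

end small

/-- change of the time -/
theorem time_change {s : ℝ} (hs : 0 < s) (f : ℝ → ℝ≥0∞) (hf : Measurable f) :
    ∫⁻ γ : ℝ, f (s * γ) = ENNReal.ofReal s⁻¹ * ∫⁻ γ : ℝ, f γ := by
  have h1 : Measure.map (fun γ => s * γ) (volume : Measure ℝ) =
      ENNReal.ofReal |s⁻¹| • volume := Real.map_volume_mul_left hs.ne'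
  have h2 := lintegral_map (μ := (volume : Measure ℝ)) hf (measurable_const_mul s)
  rw [h1, lintegral_smul_measure] at h2
  rw [← h2, abs_of_pos (inv_pos.2 hs)]
  rfl

/-- one piece -/
theorem piece {Q : ℝ} (hFR : S_fr) {l a M k : ℕ} (hk : k ≤ a + l) (haM : a + l ≤ M)
    (_hQ : 0 ≤ Q) (hB : QB ((4 : ℝ) ^ l)⁻¹ (4 ^ (a + l - k - 4)) (4 ^ (M - k)) Q)
    {G : ℝ × ℝ → ℂ} (hG : Cls ((4 : ℝ) ^ l)⁻¹ G) (j : ℤ) :
    ∫⁻ γ : ℝ, ENNReal.ofReal (psi3 (γ / 4 ^ M)) *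
        fn (j / 2 ^ k) (1 / 2 ^ k) ((4 : ℝ) ^ (((a + l : ℕ) : ℤ) - k - 4)) (Gw k j G) γ ≤
      ENNReal.ofReal (4 ^ 16 * Q * 4 ^ M) * ∫⁻ z : ℝ × ℝ, ‖Ext (Gw k j G) z‖ₑ ^ 4 := by
  obtain ⟨α, hα⟩ : ∃ α : ℝ, α = j / 2 ^ k := ⟨_, rfl⟩
  obtain ⟨s, hs⟩ : ∃ s : ℝ, s = 1 / 2 ^ k := ⟨_, rfl⟩
  have hs0 : 0 < s := by rw [hs]; positivity
  obtain ⟨ρ, hρ⟩ : ∃ ρ : ℝ, ρ = (4 : ℝ) ^ (((a + l : ℕ) : ℤ) - k - 4) := ⟨_, rfl⟩
  have hρ0 : 0 < ρ := by rw [hρ]; positivity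
  have hK : Nice (Gw k j G) := Gw_nice hG.1 k j
  obtain ⟨f1, -, f3, f4⟩ := hFR α s hs0 (Gw k j G) hK (fun ζ hζ => (hG.2 ζ (Gw_supp hζ).1).1)
  have hcls : Cls ((4 : ℝ) ^ l)⁻¹ (fr α s (Gw k j G)) := by
    have := fr_cls hG k j
    rw [← hα, ← hs] at this
    exact this f1
  have hs2 : s ^ 2 = (4 ^ k : ℝ)⁻¹ := by
    rw [hs, div_pow, one_pow, ← pow_mul, mul_comm k 2, pow_mul, one_div]
    norm_num
  have hTT : TT ρ (4 ^ (M - k)) (fr α s (Gw k j G)) ≤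
      ENNReal.ofReal (4 ^ 16) * (ENNReal.ofReal (Q * 4 ^ (M - k)) *
        ∫⁻ z : ℝ × ℝ, ‖Ext (fr α s (Gw k j G)) z‖ₑ ^ 4) := by
    have h1 := hB _ hcls
    by_cases h4 : 4 ≤ a + l - k
    · have h5 : ρ = 4 ^ (a + l - k - 4) := by
        rw [hρ, ← zpow_natCast]
        congr 1
        omega
      rw [h5]
      calc _ ≤ 1 * (ENNReal.ofReal (Q * 4 ^ (M - k)) *
            ∫⁻ z : ℝ × ℝ, ‖Ext (fr α s (Gw k j G)) z‖ₑ ^ 4) := by rw [one_mul]; exact h1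
        _ ≤ _ := by
          gcongr
          rw [← ENNReal.ofReal_one]
          exact ENNReal.ofReal_le_ofReal (by norm_num)
    · have h5 : a + l - k - 4 = 0 := by omega
      rw [h5, pow_zero] at h1
      have h6 : ρ ≤ 1 := by
        rw [hρ]
        exact zpow_le_one_of_nonpos₀ (by norm_num) (by omega)
      have h7 : (4 ^ 4 : ℝ)⁻¹ ≤ ρ := by
        rw [hρ, ← zpow_natCast, ← zpow_neg]
        exact zpow_le_zpow_right₀ (by norm_num) (by push_cast; omega)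
      exact (TT_le h7 h6 _ _).trans (by gcongr)
  -- the change of the frame
  have e1 : ∀ γ : ℝ, ENNReal.ofReal (psi3 (γ / 4 ^ M)) * fn α s ρ (Gw k j G) γ =
      ENNReal.ofReal (s ^ 3) * (fun γ' : ℝ => ENNReal.ofReal (psi3 (γ' / 4 ^ (M - k))) *
        fn 0 1 ρ (fr α s (Gw k j G)) γ') (s ^ 2 * γ) := by
    intro γ
    have h1 : fn α s ρ (Gw k j G) γ = ENNReal.ofReal (s ^ 3) *
        fn 0 1 ρ (fr α s (Gw k j G)) (s ^ 2 * γ) := f3 γ ρ hρ0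
    have h2 : s ^ 2 * γ / 4 ^ (M - k) = γ / 4 ^ M := by
      have h3 : (4 : ℝ) ^ M = 4 ^ k * 4 ^ (M - k) := by
        rw [← pow_add]
        congr 1
        omega
      rw [hs2, h3]
      field_simp
    simp only
    rw [h1, h2]
    ring
  have hmeas : Measurable (fun γ' : ℝ => ENNReal.ofReal (psi3 (γ' / 4 ^ (M - k))) *
      fn 0 1 ρ (fr α s (Gw k j G)) γ') :=
    (meas_psi3.comp (measurable_id.div_const _)).ennreal_ofReal.mul (meas_fn f1.1 _ _ _)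
  rw [← hα, ← hs, ← hρ]
  calc ∫⁻ γ : ℝ, ENNReal.ofReal (psi3 (γ / 4 ^ M)) * fn α s ρ (Gw k j G) γ
      = ENNReal.ofReal (s ^ 3) * (ENNReal.ofReal (s ^ 2)⁻¹ *
          TT ρ (4 ^ (M - k)) (fr α s (Gw k j G))) := by
        simp_rw [e1]
        rw [lintegral_const_mul' _ _ ENNReal.ofReal_ne_top,
          time_change (by positivity : (0 : ℝ) < s ^ 2) _ hmeas, TT_eq]
    _ ≤ ENNReal.ofReal (s ^ 3) * (ENNReal.ofReal (s ^ 2)⁻¹ *
          (ENNReal.ofReal (4 ^ 16) * (ENNReal.ofReal (Q * 4 ^ (M - k)) *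
        ∫⁻ z : ℝ × ℝ, ‖Ext (fr α s (Gw k j G)) z‖ₑ ^ 4))) := by gcongr
    _ = ENNReal.ofReal (4 ^ 16 * Q * 4 ^ M) * (ENNReal.ofReal (s ^ 3) *
        ∫⁻ z : ℝ × ℝ, ‖Ext (fr α s (Gw k j G)) z‖ₑ ^ 4) := by
        have h1 : ENNReal.ofReal (4 ^ 16 * Q * 4 ^ M) = ENNReal.ofReal (s ^ 2)⁻¹ *
            (ENNReal.ofReal (4 ^ 16) * ENNReal.ofReal (Q * 4 ^ (M - k))) := by
          rw [← ENNReal.ofReal_mul (by norm_num), ← ENNReal.ofReal_mul (by positivity)]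
          congr 1
          have h3 : (4 : ℝ) ^ M = 4 ^ k * 4 ^ (M - k) := by
            rw [← pow_add]
            congr 1
            omega
          rw [hs2, inv_inv, h3]
          ring
        rw [h1]
        ring
    _ = _ := by rw [← f4]

theorem s_rec : S_pa → S_tm → S_fr → S_s4 → S_rec := by
  rintro ⟨Cp, hCp, hPA⟩ ⟨Ct, hCt, hTM⟩ hFR ⟨Cs, hCs, hS4⟩
  refine ⟨max 1 (Ct * Cp * (4 ^ 16 * Cs)), le_max_left _ _, ?_⟩
  intro l a M Q hl haM hQ hB G hG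
  set K : Finset ℕ := Finset.range (min (a + l) (2 * l + 3) + 1) with hK
  set J : ℕ → Finset ℤ := fun k => Finset.Icc (-(9 * 2 ^ k) : ℤ) (9 * 2 ^ k) with hJ
  set ρ : ℕ → ℝ := fun k => (4 : ℝ) ^ (((a + l : ℕ) : ℤ) - k - 4) with hρ
  set v : ℝ → ℝ≥0∞ := fun γ => ∑ k ∈ K, ∑ j ∈ J k,
    fn (j / 2 ^ k) (1 / 2 ^ k) (ρ k) (Gw k j G) γ with hv
  have hGw : ∀ (k : ℕ) (j : ℤ), Measurable (Gw k j G) := fun k j => (Gw_nice hG.1 k j).1
  have hmv : Measurable v := Finset.measurable_sum _ fun k _ =>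
    Finset.measurable_sum _ fun j _ => meas_fn (hGw k j) _ _ _
  have hmu : Measurable (fn 0 1 (4 ^ a) G) := meas_fn hG.1.1 _ _ _
  have hmp : ∀ c R : ℝ, Measurable (fun γ : ℝ => ENNReal.ofReal (psi3 ((γ - c) / R))) :=
    fun c R => (meas_psi3.comp ((measurable_id.sub_const c).div_const R)).ennreal_ofReal
  have hsum : ∀ (g : ℝ → ℝ≥0∞), Measurable g → ∫⁻ γ : ℝ, g γ * v γ =
      ∑ k ∈ K, ∑ j ∈ J k, ∫⁻ γ : ℝ, g γ *
        fn (j / 2 ^ k) (1 / 2 ^ k) (ρ k) (Gw k j G) γ := by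
    intro g hg
    have h1 : ∀ γ, g γ * v γ = ∑ k ∈ K, ∑ j ∈ J k, g γ *
        fn (j / 2 ^ k) (1 / 2 ^ k) (ρ k) (Gw k j G) γ := by
      intro γ
      rw [hv]
      simp only
      rw [Finset.mul_sum]
      exact Finset.sum_congr rfl fun k _ => Finset.mul_sum _ _ _
    simp_rw [h1]
    have h2 := lintegral_finsetSum (μ := (volume : Measure ℝ)) K
      (f := fun (k : ℕ) (γ : ℝ) => ∑ j ∈ J k, g γ *
        fn (j / 2 ^ k) (1 / 2 ^ k) (ρ k) (Gw k j G) γ)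
      (fun k _ => Finset.measurable_sum _ fun j _ => hg.mul (meas_fn (hGw k j) _ _ _))
    rw [h2]
    exact Finset.sum_congr rfl fun k _ => lintegral_finsetSum (J k) fun j _ =>
      hg.mul (meas_fn (hGw k j) _ _ _)
  have hpow : (4 : ℝ) ^ (a + l) ≤ 4 ^ M := pow_le_pow_right₀ (by norm_num) haM
  have key := hTM (4 ^ (a + l)) (4 ^ M) (fn 0 1 (4 ^ a) G) v (ENNReal.ofReal Cp)
    (by positivity) hpow hmu hmv (by
      intro c
      have h1 := hPA a l G hl hG c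
      rw [hsum _ (hmp c _)]
      have h2 : ∀ (k : ℕ) (j : ℤ) (γ : ℝ), ∫⁻ z : ℝ × ℝ,
          Av (j / 2 ^ k) (1 / 2 ^ k) ((4 : ℝ) ^ (((a + l : ℕ) : ℤ) - k - 4))
            (sq (Gw k j (Uo γ G))) z ^ 2 =
          fn (j / 2 ^ k) (1 / 2 ^ k) (ρ k) (Gw k j G) γ := by
        intro k j γ
        rw [Gw_Uo]
        rfl
      simp_rw [h2] at h1
      exact h1)
  have hmp0 : Measurable (fun γ : ℝ => ENNReal.ofReal (psi3 (γ / 4 ^ M))) :=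
    (meas_psi3.comp (measurable_id.div_const _)).ennreal_ofReal
  rw [hsum _ hmp0] at key
  have hsupp : ∀ ζ, G ζ ≠ 0 → 1 ≤ ζ.1 ∧ ζ.1 ≤ 2 := by
    intro ζ hζ
    obtain ⟨h1, h2, -⟩ := hG.2 ζ hζ
    refine ⟨h1, h2.trans ?_⟩
    have h3 : ((4 : ℝ) ^ l)⁻¹ ≤ 1 := inv_le_one_of_one_le₀ (one_le_pow₀ (by norm_num))
    linarith
  set I : ℝ≥0∞ := ∫⁻ z : ℝ × ℝ, ‖Ext G z‖ₑ ^ 4 with hI
  have hkj : ∀ k ∈ K, ∑ j ∈ J k, ∫⁻ γ : ℝ, ENNReal.ofReal (psi3 (γ / 4 ^ M)) *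
      fn (j / 2 ^ k) (1 / 2 ^ k) (ρ k) (Gw k j G) γ ≤
      ENNReal.ofReal (4 ^ 16 * Q * 4 ^ M) * (ENNReal.ofReal Cs * I) := by
    intro k hk
    rw [hK, Finset.mem_range] at hk
    have hk1 : k ≤ a + l := by omega
    have hk2 : k ≤ min (a + l) (2 * l + 3) := by omega
    calc _ ≤ ∑ j ∈ J k, ENNReal.ofReal (4 ^ 16 * Q * 4 ^ M) *
          ∫⁻ z : ℝ × ℝ, ‖Ext (Gw k j G) z‖ₑ ^ 4 :=
          Finset.sum_le_sum fun j _ => piece hFR hk1 haM hQ (hB k hk2) hG j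
      _ = ENNReal.ofReal (4 ^ 16 * Q * 4 ^ M) *
          ∑ j ∈ J k, ∫⁻ z : ℝ × ℝ, ‖Ext (Gw k j G) z‖ₑ ^ 4 := by rw [Finset.mul_sum]
      _ ≤ _ := by
        gcongr
        exact hS4 k (J k) G hG.1 hsupp
  have hcard : ((K.card : ℕ) : ℝ≥0∞) ≤ ENNReal.ofReal (2 * l + 4) := by
    rw [hK, Finset.card_range, ← ENNReal.ofReal_natCast]
    apply ENNReal.ofReal_le_ofReal
    have : min (a + l) (2 * l + 3) + 1 ≤ 2 * l + 4 := by omega
    exact_mod_cast this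
  calc TT (4 ^ a) (4 ^ M) G
      ≤ ENNReal.ofReal Ct * ENNReal.ofReal Cp * ∑ k ∈ K, ∑ j ∈ J k, ∫⁻ γ : ℝ,
        ENNReal.ofReal (psi3 (γ / 4 ^ M)) *
          fn (j / 2 ^ k) (1 / 2 ^ k) (ρ k) (Gw k j G) γ := key
    _ ≤ ENNReal.ofReal Ct * ENNReal.ofReal Cp *
        ∑ k ∈ K, ENNReal.ofReal (4 ^ 16 * Q * 4 ^ M) * (ENNReal.ofReal Cs * I) := by
        gcongr with k hk
        exact hkj k hk
    _ = (K.card : ℝ≥0∞) * (ENNReal.ofReal Ct * ENNReal.ofReal Cp *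
          (ENNReal.ofReal (4 ^ 16 * Q * 4 ^ M) * (ENNReal.ofReal Cs * I))) := by
        rw [Finset.sum_const, nsmul_eq_mul]
        ring
    _ ≤ ENNReal.ofReal (2 * l + 4) * (ENNReal.ofReal Ct * ENNReal.ofReal Cp *
          (ENNReal.ofReal (4 ^ 16 * Q * 4 ^ M) * (ENNReal.ofReal Cs * I))) := by gcongr
    _ = ENNReal.ofReal (Ct * Cp * (4 ^ 16 * Cs) * (2 * l + 4) * Q * 4 ^ M) * I := by
        have h1 : ENNReal.ofReal (Ct * Cp * (4 ^ 16 * Cs) * (2 * l + 4) * Q * 4 ^ M) =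
            ENNReal.ofReal (2 * l + 4) * (ENNReal.ofReal Ct * ENNReal.ofReal Cp *
            (ENNReal.ofReal (4 ^ 16 * Q * 4 ^ M) * ENNReal.ofReal Cs)) := by
          rw [← ENNReal.ofReal_mul hCt.le, ← ENNReal.ofReal_mul (by positivity),
            ← ENNReal.ofReal_mul (by positivity), ← ENNReal.ofReal_mul (by positivity)]
          congr 1
          ring
        rw [h1]
        ring
    _ ≤ ENNReal.ofReal (max 1 (Ct * Cp * (4 ^ 16 * Cs)) * (2 * l + 4) * Q * 4 ^ M) * I := by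
        gcongr
        exact le_max_right _ _

end Pool.Agent.T9h89.LG
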