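import Pool.Agent.T9h44.LG.Spec

/-!
# Project LG, the far pairs (pure algebra). Author: helper89.
-/

set_option autoImplicit false

namespace Pool.Agent.T9h89.LG

open Pool.Agent.T9h44.LG

/-- the identity for the phase -/
theorem ph_id (w ω α₁ α₂ : ℝ) :
    α₁ ^ 2 * (w + ω) - α₂ ^ 2 * w =
      2 * ((α₁ + α₂) / 2) * (α₁ * (w + ω) - α₂ * w) - ((α₁ + α₂) / 2) ^ 2 * ω +
        ω * (α₁ - α₂) ^ 2 / 4 := by
  ring

theorem far_core (p q w w' ω η α₁ α₂ β₁ β₂ : ℝ) (hp : 1 ≤ p) (hq : 2 ≤ q)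
    (hw : 1 ≤ w) (hwu : w ≤ 1 + 1 / q ^ 2) (hv : 1 ≤ w + ω) (hvu : w + ω ≤ 1 + 1 / q ^ 2)
    (hw' : 1 ≤ w') (hwu' : w' ≤ 1 + 1 / q ^ 2) (hv' : 1 ≤ w' + ω) (hvu' : w' + ω ≤ 1 + 1 / q ^ 2)
    (hβ₁ : |β₁| ≤ 8) (hβ₂ : |β₂| ≤ 8)
    (hη : η = α₁ * (w + ω) - α₂ * w) (hη' : η = β₁ * (w' + ω) - β₂ * w')
    (hω : |ω| ≤ 1 / p ^ 2) (hηb : |η| ≤ 1 / p ^ 2)
    (hd : 2 ≤ p * q * (α₁ - α₂)) (hd' : 2 ≤ p * q * (β₁ - β₂))
    (hph : |(α₁ ^ 2 * (w + ω) - α₂ ^ 2 * w) - (β₁ ^ 2 * (w' + ω) - β₂ ^ 2 * w')| <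
      1 / (p * q) ^ 2) :
    p * q * |α₁ - β₁| ≤ 28 ∧ p * q * |α₂ - β₂| ≤ 28 := by
  have hp0 : 0 < p := by linarith
  have hq0 : 0 < q := by linarith
  obtain ⟨N, hN⟩ : ∃ N : ℝ, N = p * q := ⟨_, rfl⟩
  rw [← hN] at hd hd' hph ⊢
  have hN0 : 0 < N := by rw [hN]; exact mul_pos hp0 hq0
  obtain ⟨d, hdd⟩ : ∃ d : ℝ, d = α₁ - α₂ := ⟨_, rfl⟩
  obtain ⟨d', hdd'⟩ : ∃ d' : ℝ, d' = β₁ - β₂ := ⟨_, rfl⟩
  rw [← hdd] at hd
  rw [← hdd'] at hd'
  obtain ⟨a, ha⟩ : ∃ a : ℝ, a = (α₁ + α₂) / 2 := ⟨_, rfl⟩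
  obtain ⟨a', ha'⟩ : ∃ a' : ℝ, a' = (β₁ + β₂) / 2 := ⟨_, rfl⟩
  obtain ⟨W, hW⟩ : ∃ W : ℝ, W = w + ω / 2 := ⟨_, rfl⟩
  obtain ⟨W', hW'⟩ : ∃ W' : ℝ, W' = w' + ω / 2 := ⟨_, rfl⟩
  obtain ⟨κ, hκ⟩ : ∃ κ : ℝ, κ = 1 / q ^ 2 := ⟨_, rfl⟩
  rw [← hκ] at hwu hvu hwu' hvu'
  have hκ0 : 0 < κ := by rw [hκ]; positivity
  have hκ4 : κ ≤ 1 / 4 := by
    rw [hκ]
    have : (4 : ℝ) ≤ q ^ 2 := by nlinarith
    exact one_div_le_one_div_of_le (by norm_num) this
  have hd0 : 0 < d := by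
    by_contra h
    push Not at h
    have := mul_nonpos_of_nonneg_of_nonpos hN0.le h
    linarith
  have hd0' : 0 < d' := by
    by_contra h
    push Not at h
    have := mul_nonpos_of_nonneg_of_nonpos hN0.le h
    linarith
  have hW1 : 1 ≤ W := by rw [hW]; linarith
  have hW1' : 1 ≤ W' := by rw [hW']; linarith
  have hWW : |W - W'| ≤ κ := by
    rw [hW, hW', abs_le]
    constructor <;> linarith
  have hωκ : |ω| ≤ κ := by
    rw [abs_le]
    constructor <;> linarith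
  -- the identities
  have e1 : W * d = η - a * ω := by rw [hη, hW, hdd, ha]; ring
  have e2 : W' * d' = η - a' * ω := by rw [hη', hW', hdd', ha']; ring
  have e3 : (α₁ ^ 2 * (w + ω) - α₂ ^ 2 * w) - (β₁ ^ 2 * (w' + ω) - β₂ ^ 2 * w') =
      (a - a') * (W * d + W' * d') + ω * (d ^ 2 - d' ^ 2) / 4 := by
    rw [ph_id w ω α₁ α₂, ph_id w' ω β₁ β₂, ← hη, ← hη', e1, e2, ← ha, ← ha', ← hdd, ← hdd']
    ring
  rw [e3] at hph
  have e4 : W * (d - d') = -((a - a') * ω) - (W - W') * d' := by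
    have : W * d - W' * d' = -((a - a') * ω) := by rw [e1, e2]; ring
    linear_combination this
  -- bounds
  obtain ⟨x, hx⟩ : ∃ x : ℝ, x = |a - a'| := ⟨_, rfl⟩
  have hx0 : 0 ≤ x := by rw [hx]; exact abs_nonneg _
  have f1 : |d - d'| ≤ κ * (x + d') := by
    have h1 : |d - d'| ≤ |W * (d - d')| := by
      rw [abs_mul, abs_of_pos (by linarith : (0 : ℝ) < W)]
      have h5 := mul_le_mul_of_nonneg_right hW1 (abs_nonneg (d - d'))
      linarith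
    have h2 : |W * (d - d')| ≤ x * |ω| + |W - W'| * d' := by
      rw [e4]
      calc |-((a - a') * ω) - (W - W') * d'| ≤ |-((a - a') * ω)| + |(W - W') * d'| := abs_sub _ _
        _ = x * |ω| + |W - W'| * d' := by
          rw [abs_neg, abs_mul, abs_mul, abs_of_pos hd0', hx]
    have h3 : x * |ω| ≤ x * κ := mul_le_mul_of_nonneg_left hωκ hx0
    have h4 : |W - W'| * d' ≤ κ * d' := mul_le_mul_of_nonneg_right hWW hd0'.le
    linarith
  have f2 : x * (d + d') ≤ 1 / N ^ 2 + κ * (κ * (x + d')) * (d + d') / 4 := by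
    have h1 : x * (d + d') ≤ |(a - a') * (W * d + W' * d')| := by
      have h0 : d + d' ≤ W * d + W' * d' := by
        have h5 := mul_le_mul_of_nonneg_right hW1 hd0.le
        have h6 := mul_le_mul_of_nonneg_right hW1' hd0'.le
        linarith
      rw [abs_mul, ← hx, abs_of_nonneg (by linarith : (0 : ℝ) ≤ W * d + W' * d')]
      exact mul_le_mul_of_nonneg_left h0 hx0
    have h2 : |(a - a') * (W * d + W' * d')| ≤
        |(a - a') * (W * d + W' * d') + ω * (d ^ 2 - d' ^ 2) / 4| +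
          |ω * (d ^ 2 - d' ^ 2) / 4| := by
      have := abs_sub ((a - a') * (W * d + W' * d') + ω * (d ^ 2 - d' ^ 2) / 4)
        (ω * (d ^ 2 - d' ^ 2) / 4)
      rwa [add_sub_cancel_right] at this
    have h3 : |ω * (d ^ 2 - d' ^ 2) / 4| = |ω| * (|d - d'| * (d + d')) / 4 := by
      rw [abs_div, abs_mul, sq_sub_sq, abs_mul, abs_of_pos (by linarith : (0 : ℝ) < d + d'),
        abs_of_pos (by norm_num : (0 : ℝ) < 4)]
      ring
    have h4 : |ω| * (|d - d'| * (d + d')) ≤ κ * (κ * (x + d') * (d + d')) := by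
      apply mul_le_mul hωκ _ (by positivity) hκ0.le
      exact mul_le_mul_of_nonneg_right f1 (by linarith)
    rw [h3] at h2
    linarith
  have hNd : 2 ≤ N * d := hd
  have hNd' : 2 ≤ N * d' := hd'
  have f3 : N * x ≤ 1 / 4 + κ * (κ * (N * x + N * d')) / 4 := by
    have hs : 0 < d + d' := by linarith
    have h1 : N * (x * (d + d')) ≤ N * (1 / N ^ 2 + κ * (κ * (x + d')) * (d + d') / 4) :=
      mul_le_mul_of_nonneg_left f2 hN0.le
    have h2 : N * (1 / N ^ 2) = 1 / N := by field_simp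
    have h3 : (1 : ℝ) / N ≤ 1 / 4 * (d + d') := by
      rw [div_le_iff₀ hN0]
      have h5 : 1 / 4 * (d + d') * N = (N * d + N * d') / 4 := by ring
      linarith
    have h4 : (N * x) * (d + d') ≤ (1 / 4 + κ * (κ * (N * x + N * d')) / 4) * (d + d') := by
      calc (N * x) * (d + d') = N * (x * (d + d')) := by ring
        _ ≤ N * (1 / N ^ 2 + κ * (κ * (x + d')) * (d + d') / 4) := h1
        _ = 1 / N + κ * (κ * (N * x + N * d')) * (d + d') / 4 := by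
          rw [mul_add, h2]; ring
        _ ≤ 1 / 4 * (d + d') + κ * (κ * (N * x + N * d')) * (d + d') / 4 := by linarith
        _ = _ := by ring
    exact le_of_mul_le_mul_right h4 hs
  -- size of `d'`
  have g1 : |a'| ≤ 8 := by
    rw [ha', abs_le]
    rw [abs_le] at hβ₁ hβ₂
    constructor <;> linarith
  have g2 : d' ≤ 9 / p ^ 2 := by
    have h1 : d' ≤ W' * d' := by
      have h6 := mul_le_mul_of_nonneg_right hW1' hd0'.le
      linarith
    have h2 : W' * d' ≤ |η| + |a'| * |ω| := by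
      rw [e2]
      have h3 := abs_sub η (a' * ω)
      rw [abs_mul] at h3
      exact (le_abs_self _).trans h3
    have h3 : |a'| * |ω| ≤ 8 * (1 / p ^ 2) := mul_le_mul g1 hω (abs_nonneg _) (by norm_num)
    calc d' ≤ |η| + |a'| * |ω| := h1.trans h2
      _ ≤ 1 / p ^ 2 + 8 * (1 / p ^ 2) := by linarith
      _ = 9 / p ^ 2 := by ring
  have g3 : N * d' ≤ 9 * q := by
    have h1 : N * d' ≤ N * (9 / p ^ 2) := mul_le_mul_of_nonneg_left g2 hN0.le
    have h2 : N * (9 / p ^ 2) = 9 * q * (1 / p) := by rw [hN]; field_simp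
    have h3 : 1 / p ≤ 1 := by rw [div_le_one hp0]; exact hp
    calc N * d' ≤ 9 * q * (1 / p) := by rw [← h2]; exact h1
      _ ≤ 9 * q * 1 := mul_le_mul_of_nonneg_left h3 (by positivity)
      _ = 9 * q := mul_one _
  have g4 : κ * (N * d') ≤ 9 / 2 := by
    have h1 : κ * (N * d') ≤ κ * (9 * q) := mul_le_mul_of_nonneg_left g3 hκ0.le
    have h2 : κ * (9 * q) = 9 / q := by rw [hκ]; field_simp
    have h3 : (9 : ℝ) / q ≤ 9 / 2 := div_le_div_of_nonneg_left (by norm_num) (by norm_num) hq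
    linarith
  have g5 : N * x ≤ 1 := by
    have h1 : κ * (κ * (N * d')) ≤ 1 / 4 * (9 / 2) :=
      mul_le_mul hκ4 g4 (by positivity) (by norm_num)
    have h2 : κ * (κ * (N * x)) ≤ 1 / 4 * (1 / 4 * (N * x)) := by
      have h3 : κ * (N * x) ≤ 1 / 4 * (N * x) := mul_le_mul_of_nonneg_right hκ4 (by positivity)
      exact mul_le_mul hκ4 h3 (by positivity) (by norm_num)
    have h3 : κ * (κ * (N * x + N * d')) = κ * (κ * (N * x)) + κ * (κ * (N * d')) := by ring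
    rw [h3] at f3
    linarith
  have g6 : N * |d - d'| ≤ 5 := by
    have h1 : N * |d - d'| ≤ N * (κ * (x + d')) := mul_le_mul_of_nonneg_left f1 hN0.le
    have h2 : N * (κ * (x + d')) = κ * (N * x) + κ * (N * d') := by ring
    have h3 : κ * (N * x) ≤ 1 / 4 * 1 := mul_le_mul hκ4 g5 (by positivity) (by norm_num)
    linarith
  constructor
  · have h1 : α₁ - β₁ = (a - a') + (d - d') / 2 := by rw [ha, ha', hdd, hdd']; ring
    have h2 : |α₁ - β₁| ≤ x + |d - d'| / 2 := by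
      rw [h1]
      refine (abs_add_le _ _).trans ?_
      rw [abs_div, abs_of_pos (by norm_num : (0 : ℝ) < 2), hx]
    calc N * |α₁ - β₁| ≤ N * (x + |d - d'| / 2) := mul_le_mul_of_nonneg_left h2 hN0.le
      _ = N * x + N * |d - d'| / 2 := by ring
      _ ≤ 28 := by linarith
  · have h1 : α₂ - β₂ = (a - a') - (d - d') / 2 := by rw [ha, ha', hdd, hdd']; ring
    have h2 : |α₂ - β₂| ≤ x + |d - d'| / 2 := by
      rw [h1]
      refine (abs_sub _ _).trans ?_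
      rw [abs_div, abs_of_pos (by norm_num : (0 : ℝ) < 2), hx]
    calc N * |α₂ - β₂| ≤ N * (x + |d - d'| / 2) := mul_le_mul_of_nonneg_left h2 hN0.le
      _ = N * x + N * |d - d'| / 2 := by ring
      _ ≤ 28 := by linarith

theorem al_le {δ : ℝ} {ζ : ℝ × ℝ} (h : ζ ∈ Dom δ) : |al ζ| ≤ 8 := by
  obtain ⟨h1, _, h3⟩ := h
  have h0 : 0 < ζ.1 := by linarith
  rw [al, abs_div, abs_of_pos h0, div_le_iff₀ h0]
  exact h3

theorem al_mul {δ : ℝ} {ζ : ℝ × ℝ} (h : ζ ∈ Dom δ) : al ζ * ζ.1 = ζ.2 := by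
  have h0 : ζ.1 ≠ 0 := by have := h.1; linarith
  rw [al, div_mul_cancel₀ _ h0]

theorem qq_eq {δ : ℝ} {ζ : ℝ × ℝ} (h : ζ ∈ Dom δ) : qq ζ = al ζ ^ 2 * ζ.1 := by
  have h0 : ζ.1 ≠ 0 := by have := h.1; linarith
  rw [al, qq]
  field_simp

theorem int_bd {N x y : ℝ} {i j : ℤ} (hx : |N * x - i| ≤ 1) (hy : |N * y - j| ≤ 1) (hN : 0 ≤ N)
    (h : N * |x - y| ≤ 28) : |i - j| ≤ 30 := by
  have h1 : |N * (x - y)| ≤ 28 := by rw [abs_mul, abs_of_nonneg hN]; exact h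
  have h2 : |((i - j : ℤ) : ℝ)| ≤ 30 := by
    push_cast
    rw [abs_le] at hx hy h1 ⊢
    constructor <;> linarith
  exact_mod_cast h2

theorem s_far : S_far := by
  intro a l hl h ζ ζ' hζ hζh hζ' hζh' hω hη i₁ i₂ j₁ j₂ hi₁ hi₂ hj₁ hj₂ hi hj hph
  set p : ℝ := 2 ^ a with hp
  set q : ℝ := 2 ^ l with hq
  have hp1 : 1 ≤ p := one_le_pow₀ (by norm_num)
  have hq2 : 2 ≤ q := by
    calc (2 : ℝ) = 2 ^ 1 := (pow_one 2).symm
      _ ≤ 2 ^ l := pow_le_pow_right₀ (by norm_num) hl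
  have e1 : (4 : ℝ) ^ a = p ^ 2 := by
    rw [hp, ← pow_mul, mul_comm, pow_mul]; norm_num
  have e2 : (4 : ℝ) ^ l = q ^ 2 := by
    rw [hq, ← pow_mul, mul_comm, pow_mul]; norm_num
  have e3 : (2 : ℝ) ^ (a + l) = p * q := pow_add _ _ _
  have e4 : (4 : ℝ) ^ (a + l) = (p * q) ^ 2 := by rw [pow_add, e1, e2, mul_pow]
  rw [e2, ← one_div] at hζ hζh hζ' hζh'
  rw [e1, ← one_div] at hω hη
  rw [e3] at hi₁ hi₂ hj₁ hj₂
  rw [e4, ph, ph, qq_eq hζ, qq_eq hζh, qq_eq hζ', qq_eq hζh'] at hph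
  have hi' : (i₂ : ℝ) + 4 ≤ i₁ := by exact_mod_cast hi
  have hj' : (j₂ : ℝ) + 4 ≤ j₁ := by exact_mod_cast hj
  have key := far_core p q ζ.1 ζ'.1 h.1 h.2 (al (ζ + h)) (al ζ) (al (ζ' + h)) (al ζ') hp1 hq2
    hζ.1 hζ.2.1 hζh.1 hζh.2.1 hζ'.1 hζ'.2.1 hζh'.1 hζh'.2.1 (al_le hζh') (al_le hζ')
    (by
      have h1 := al_mul hζ
      have h2 := al_mul hζh
      simp only [Prod.fst_add, Prod.snd_add] at h2
      rw [h1, h2]; ring)
    (by
      have h1 := al_mul hζ'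
      have h2 := al_mul hζh'
      simp only [Prod.fst_add, Prod.snd_add] at h2
      rw [h1, h2]; ring)
    hω hη
    (by
      rw [abs_le] at hi₁ hi₂
      rw [mul_sub]; linarith [hi₁.1, hi₂.2])
    (by
      rw [abs_le] at hj₁ hj₂
      rw [mul_sub]; linarith [hj₁.1, hj₂.2]) hph
  exact ⟨int_bd hi₁ hj₁ (by positivity) key.1, int_bd hi₂ hj₂ (by positivity) key.2⟩

end Pool.Agent.T9h89.LG
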