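import Pool.Agent.T9h89.LG.Far

/-!
# Project LG: (NG), (GD), (LEV) (pure algebra). Author: helper89.
-/

set_option autoImplicit false

namespace Pool.Agent.T9h89.LG

open Pool.Agent.T9h44.LG

theorem ng_core (N w ω η α₁ α₂ b : ℝ) (hN0 : 0 < N) (hw : 1 ≤ w) (hwu : w ≤ 5 / 4)
    (hv : 1 ≤ w + ω) (hvu : w + ω ≤ 5 / 4) (hη : η = α₁ * (w + ω) - α₂ * w)
    (hb : |N * (α₁ - b)| ≤ 1) (hd : |N * (α₁ - α₂)| ≤ 5) :
    N * |η - b * ω| ≤ 15 ∧ N * |η - (b + 1 / N) * ω| ≤ 16 ∧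
      N ^ 2 * |(α₁ ^ 2 * (w + ω) - α₂ ^ 2 * w) - (2 * b * η - b ^ 2 * ω)| ≤ 50 := by
  obtain ⟨x, hx⟩ : ∃ x : ℝ, x = N * (α₁ - b) := ⟨_, rfl⟩
  obtain ⟨y, hy⟩ : ∃ y : ℝ, y = N * (α₁ - α₂) := ⟨_, rfl⟩
  rw [← hx] at hb
  rw [← hy] at hd
  have hω : |ω| ≤ 1 / 4 := by rw [abs_le]; constructor <;> linarith
  have hω0 := abs_nonneg ω
  obtain ⟨v, hvv⟩ : ∃ v : ℝ, v = w + ω := ⟨_, rfl⟩
  have hv1 : |v| ≤ 5 / 4 := by rw [abs_le, hvv]; constructor <;> linarith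
  have hw1 : |w| ≤ 5 / 4 := by rw [abs_le]; constructor <;> linarith
  have hWb : |w + ω / 2| ≤ 5 / 4 := by rw [abs_le]; constructor <;> linarith
  -- `N (A - b) = x - y/2`, `N W d = W y`
  have e1 : N * (η - b * ω) = (w + ω / 2) * y + (x - y / 2) * ω := by
    rw [hη, hx, hy]; ring
  have e2 : N * (η - (b + 1 / N) * ω) = (w + ω / 2) * y + (x - y / 2 - 1) * ω := by
    have : N * (η - (b + 1 / N) * ω) = N * (η - b * ω) - ω := by field_simp; ring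
    rw [this, e1]; ring
  have e3 : N ^ 2 * ((α₁ ^ 2 * (w + ω) - α₂ ^ 2 * w) - (2 * b * η - b ^ 2 * ω)) =
      (x - y / 2) * (2 * ((w + ω / 2) * y) + (x - y / 2) * ω) + ω * y ^ 2 / 4 := by
    rw [hη, hx, hy]; ring
  have f1 : |(w + ω / 2) * y| ≤ 25 / 4 := by
    rw [abs_mul]
    calc |w + ω / 2| * |y| ≤ 5 / 4 * 5 := mul_le_mul hWb hd (abs_nonneg _) (by norm_num)
      _ = 25 / 4 := by norm_num
  have f2 : |x - y / 2| ≤ 7 / 2 := by
    rw [abs_le] at hb hd ⊢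
    constructor <;> linarith
  have f3 : |(x - y / 2) * ω| ≤ 7 / 8 := by
    rw [abs_mul]
    calc |x - y / 2| * |ω| ≤ 7 / 2 * (1 / 4) := mul_le_mul f2 hω hω0 (by norm_num)
      _ = 7 / 8 := by norm_num
  have f4 : |(x - y / 2 - 1) * ω| ≤ 9 / 8 := by
    rw [abs_mul]
    have : |x - y / 2 - 1| ≤ 9 / 2 := by
      rw [abs_le] at f2 ⊢
      constructor <;> linarith
    calc |x - y / 2 - 1| * |ω| ≤ 9 / 2 * (1 / 4) := mul_le_mul this hω hω0 (by norm_num)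
      _ = 9 / 8 := by norm_num
  have hm : ∀ c z : ℝ, 0 < c → c * |z| = |c * z| := fun c z hc => by
    rw [abs_mul, abs_of_pos hc]
  refine ⟨?_, ?_, ?_⟩
  · rw [hm _ _ hN0, e1]
    exact (abs_add_le _ _).trans (by linarith)
  · rw [hm _ _ hN0, e2]
    exact (abs_add_le _ _).trans (by linarith)
  · rw [hm _ _ (by positivity : (0 : ℝ) < N ^ 2), e3]
    refine (abs_add_le _ _).trans ?_
    have g1 : |(x - y / 2) * (2 * ((w + ω / 2) * y) + (x - y / 2) * ω)| ≤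
        7 / 2 * (25 / 2 + 7 / 8) := by
      rw [abs_mul]
      refine mul_le_mul f2 ?_ (abs_nonneg _) (by norm_num)
      refine (abs_add_le _ _).trans ?_
      rw [abs_mul 2, abs_of_pos (by norm_num : (0 : ℝ) < 2)]
      linarith
    have g2 : |ω * y ^ 2 / 4| ≤ 25 / 16 := by
      rw [abs_div, abs_mul, abs_of_pos (by norm_num : (0 : ℝ) < 4), abs_pow]
      have h1 : |y| ^ 2 ≤ 5 ^ 2 := pow_le_pow_left₀ (abs_nonneg _) hd 2
      have h2 : |ω| * |y| ^ 2 ≤ 1 / 4 * 5 ^ 2 := mul_le_mul hω h1 (by positivity) (by norm_num)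
      linarith
    linarith

theorem s_ng : S_ng := by
  intro m l hl h ζ hζ hζh i₁ i₂ hi₁ hi₂ hi
  obtain ⟨N, hN⟩ : ∃ N : ℝ, N = 2 ^ m := ⟨_, rfl⟩
  have hN0 : 0 < N := by rw [hN]; positivity
  have e4 : (4 : ℝ) ^ m = N ^ 2 := by
    rw [hN, ← pow_mul, mul_comm, pow_mul]; norm_num
  have hδ : ((4 : ℝ) ^ l)⁻¹ ≤ 1 / 4 := by
    rw [← one_div]
    apply one_div_le_one_div_of_le (by norm_num)
    calc (4 : ℝ) = 4 ^ 1 := (pow_one 4).symm
      _ ≤ 4 ^ l := pow_le_pow_right₀ (by norm_num) hl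
  rw [← hN] at hi₁ hi₂
  have hi' : |(i₁ : ℝ) - i₂| ≤ 3 := by exact_mod_cast hi
  have key := ng_core N ζ.1 h.1 h.2 (al (ζ + h)) (al ζ) (i₁ / N) hN0 hζ.1
    (by have := hζ.2.1; linarith) hζh.1 (by have := hζh.2.1; simp only [Prod.fst_add] at this ⊢
                                            linarith)
    (by
      have h1 := al_mul hζ
      have h2 := al_mul hζh
      simp only [Prod.fst_add, Prod.snd_add] at h2
      rw [h1, h2]; ring)
    (by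
      have : N * (al (ζ + h) - i₁ / N) = N * al (ζ + h) - i₁ := by field_simp
      rw [this]; exact hi₁)
    (by
      rw [mul_sub]
      rw [abs_le] at hi₁ hi₂ hi' ⊢
      constructor <;> linarith)
  have hgd : (16 : ℝ) * 2 ^ m / 4 ^ m = 16 / N := by
    rw [e4, ← hN]; field_simp
  refine ⟨⟨?_, ?_⟩, ?_⟩
  · rw [hgd, ← hN, le_div_iff₀ hN0, mul_comm]
    linarith [key.1]
  · rw [hgd, ← hN, le_div_iff₀ hN0, mul_comm]
    have : ((i₁ : ℝ) + 1) / N = i₁ / N + 1 / N := add_div _ _ _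
    rw [this]
    exact key.2.1
  · rw [ph, qq_eq hζ, qq_eq hζh, pp, e4, ← hN, le_div_iff₀ (by positivity), mul_comm]
    exact key.2.2

theorem s_gd : S_gd := by
  intro m h k j hg
  obtain ⟨h1, h2⟩ := hg
  obtain ⟨N, hN⟩ : ∃ N : ℝ, N = 2 ^ k := ⟨_, rfl⟩
  have hN0 : 0 < N := by rw [hN]; positivity
  obtain ⟨B, hB⟩ : ∃ B : ℝ, B = 16 * 2 ^ k / 4 ^ m := ⟨_, rfl⟩
  have hB0 : 0 ≤ B := by rw [hB]; positivity
  have hB2 : (16 : ℝ) * 2 ^ (k + 1) / 4 ^ m = 2 * B := by rw [hB, pow_succ]; ring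
  have hN2 : (2 : ℝ) ^ (k + 1) = 2 * N := by rw [hN, pow_succ]; ring
  rw [← hB, ← hN] at h1 h2
  have hj : (j : ℝ) = 2 * ((j / 2 : ℤ) : ℝ) ∨ (j : ℝ) = 2 * ((j / 2 : ℤ) : ℝ) + 1 := by
    rcases Int.emod_two_eq_zero_or_one j with h0 | h0
    · left
      have : j = 2 * (j / 2) := by omega
      exact_mod_cast this
    · right
      have : j = 2 * (j / 2) + 1 := by omega
      exact_mod_cast this
  obtain ⟨c, hc⟩ : ∃ c : ℝ, c = ((j / 2 : ℤ) : ℝ) := ⟨_, rfl⟩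
  rw [← hc] at h1 h2 hj
  unfold good
  rw [hB2, hN2]
  have e1 : ∀ t : ℝ, (2 * c + t) / (2 * N) * h.1 =
      (1 - t / 2) * (c / N * h.1) + t / 2 * ((c + 1) / N * h.1) := by
    intro t
    field_simp
    ring
  have e2 : ∀ t : ℝ, 0 ≤ t → t ≤ 2 → |h.2 - (2 * c + t) / (2 * N) * h.1| ≤ 2 * B := by
    intro t ht ht2
    rw [e1]
    have : h.2 - ((1 - t / 2) * (c / N * h.1) + t / 2 * ((c + 1) / N * h.1)) =
        (1 - t / 2) * (h.2 - c / N * h.1) + t / 2 * (h.2 - (c + 1) / N * h.1) := by ring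
    rw [this]
    refine (abs_add_le _ _).trans ?_
    rw [abs_mul, abs_mul, abs_of_nonneg (by linarith : (0 : ℝ) ≤ 1 - t / 2),
      abs_of_nonneg (by linarith : (0 : ℝ) ≤ t / 2)]
    have g1 := mul_le_mul_of_nonneg_left h1 (by linarith : (0 : ℝ) ≤ 1 - t / 2)
    have g2 := mul_le_mul_of_nonneg_left h2 (by linarith : (0 : ℝ) ≤ t / 2)
    nlinarith
  rcases hj with hj | hj
  · rw [hj]
    refine ⟨?_, e2 1 (by norm_num) (by norm_num)⟩
    have := e2 0 le_rfl (by norm_num)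
    rwa [add_zero] at this
  · rw [hj]
    refine ⟨e2 1 (by norm_num) (by norm_num), ?_⟩
    have := e2 2 (by norm_num) le_rfl
    rwa [show (2 * c + 1 + 1 : ℝ) = 2 * c + 2 by ring]

theorem s_lev : S_lev := by
  intro a l k j h hω hη hj hg
  obtain ⟨hk, hgood, hmax⟩ := hg
  by_contra hcon
  push Not at hcon
  rcases hmax with h0 | h0
  · omega
  apply h0
  obtain ⟨N, hN⟩ : ∃ N : ℝ, N = 2 ^ (k - 1) := ⟨_, rfl⟩
  have hN1 : 1 ≤ N := by rw [hN]; exact one_le_pow₀ (by norm_num)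
  have hN0 : 0 < N := by linarith
  have hk2 : (2 : ℝ) ^ k = 2 * N := by
    rw [hN, ← pow_succ']
    congr 1
    omega
  obtain ⟨s, hs⟩ : ∃ s : ℝ, s = ((4 : ℝ) ^ a)⁻¹ := ⟨_, rfl⟩
  have hs0 : 0 < s := by rw [hs]; positivity
  rw [← hs] at hω hη
  have hB : 16 * s ≤ 16 * 2 ^ (k - 1) / 4 ^ (a + l) := by
    have h1 : (4 : ℝ) ^ l ≤ 2 ^ (k - 1) := by
      have h2 : (4 : ℝ) ^ l = 2 ^ (2 * l) := by rw [pow_mul]; norm_num
      rw [h2]
      exact pow_le_pow_right₀ (by norm_num) (by omega)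
    rw [hs, pow_add, le_div_iff₀ (by positivity)]
    have h4 : (0 : ℝ) < 4 ^ a := by positivity
    calc 16 * ((4 : ℝ) ^ a)⁻¹ * (4 ^ a * 4 ^ l) = 16 * 4 ^ l := by field_simp
      _ ≤ 16 * 2 ^ (k - 1) := by linarith
  have hjr : |(j : ℝ)| ≤ 9 * (2 * N) := by
    rw [← hk2]
    exact_mod_cast hj
  have hj2 : |((j / 2 : ℤ) : ℝ) * 2 - j| ≤ 1 := by
    have : |(j / 2) * 2 - j| ≤ 1 := by
      rw [abs_le]
      constructor <;> omega
    exact_mod_cast this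
  obtain ⟨c, hc⟩ : ∃ c : ℝ, c = ((j / 2 : ℤ) : ℝ) := ⟨_, rfl⟩
  rw [← hc] at hj2
  have hcb : |c| ≤ 9 * N + 1 := by
    rw [abs_le] at hjr hj2 ⊢
    constructor <;> linarith
  have key : ∀ t : ℝ, 0 ≤ t → t ≤ 1 → |h.2 - (c + t) / N * h.1| ≤ 16 * s := by
    intro t ht ht1
    have h1 : |(c + t) / N| ≤ 11 := by
      rw [abs_div, abs_of_pos hN0, div_le_iff₀ hN0]
      rw [abs_le] at hcb ⊢
      constructor <;> linarith
    calc |h.2 - (c + t) / N * h.1| ≤ |h.2| + |(c + t) / N * h.1| := abs_sub _ _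
      _ ≤ s + 11 * s := by
        rw [abs_mul]
        exact add_le_add hη (mul_le_mul h1 hω (abs_nonneg _) (by norm_num))
      _ ≤ 16 * s := by linarith
  unfold good
  rw [← hN, ← hc]
  rw [← hN] at hB
  refine ⟨?_, (key 1 (by norm_num) le_rfl).trans hB⟩
  have := key 0 le_rfl (by norm_num)
  rw [add_zero] at this
  exact this.trans hB

end Pool.Agent.T9h89.LG
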