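import Pool.Agent.T9h89.LG.Rec

/-!
# Project LG: (FIN). Author: helper89.
-/

set_option autoImplicit false

namespace Pool.Agent.T9h89.LG

open MeasureTheory Real Pool.Agent.T9h44.LG Filter
open scoped ENNReal ComplexConjugate Topology

theorem psi3_bd (x : ℝ) : psi3 x * (1 + |x|) ^ 4 ≤ 4 * (1 + x ^ 2)⁻¹ := by
  have h1 : (1 + |x|) ^ 2 ≤ 2 * (1 + x ^ 2) := by
    have := sq_abs x
    nlinarith [sq_nonneg (1 - |x|)]
  have h2 : (1 + |x|) ^ 4 ≤ 4 * (1 + x ^ 2) ^ 2 := by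
    calc (1 + |x|) ^ 4 = ((1 + |x|) ^ 2) ^ 2 := by ring
      _ ≤ (2 * (1 + x ^ 2)) ^ 2 := pow_le_pow_left₀ (by positivity) h1 2
      _ = _ := by ring
  have h3 : (0 : ℝ) < 1 + x ^ 2 := by positivity
  calc psi3 x * (1 + |x|) ^ 4 ≤ psi3 x * (4 * (1 + x ^ 2) ^ 2) := by
        apply mul_le_mul_of_nonneg_left h2
        unfold psi3
        positivity
    _ = 4 * (1 + x ^ 2)⁻¹ := by
        unfold psi3
        field_simp

theorem lint_inv {R : ℝ} (hR : 0 < R) :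
    ∫⁻ γ : ℝ, ENNReal.ofReal ((1 + (γ / R) ^ 2)⁻¹) = ENNReal.ofReal (R * π) := by
  have h1 : Integrable (fun γ : ℝ => (1 + (γ / R) ^ 2)⁻¹) := by
    have := (integrable_comp_mul_left_iff (fun x : ℝ => (1 + x ^ 2)⁻¹)
      (inv_ne_zero hR.ne')).2 integrable_inv_one_add_sq
    refine this.congr (Eventually.of_forall fun γ => ?_)
    show (1 + (R⁻¹ * γ) ^ 2)⁻¹ = (1 + (γ / R) ^ 2)⁻¹
    rw [div_eq_inv_mul]
  rw [← ofReal_integral_eq_lintegral_ofReal h1 (Eventually.of_forall fun γ => by positivity)]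
  congr 1
  have h2 := Measure.integral_comp_div (fun x : ℝ => (1 + x ^ 2)⁻¹) R
  rw [h2, integral_univ_inv_one_add_sq, abs_of_pos hR, smul_eq_mul]

theorem Cls.mono {δ δ' : ℝ} (h : δ ≤ δ') {G : ℝ × ℝ → ℂ} (hG : Cls δ G) : Cls δ' G :=
  ⟨hG.1, fun ζ hζ => ⟨(hG.2 ζ hζ).1, (hG.2 ζ hζ).2.1.trans (by linarith), (hG.2 ζ hζ).2.2⟩⟩

/-- the base case -/
theorem base {C : ℝ} (hC : 0 < C)
    (hBS : ∀ G : ℝ × ℝ → ℂ, Cls 1 G → ∀ ρ : ℝ, 1 ≤ ρ → ∀ γ : ℝ,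
    ∫⁻ z : ℝ × ℝ, Av 0 1 ρ (sq (Uo γ G)) z ^ 2 ≤
      ENNReal.ofReal (C * (1 + |γ| / ρ) ^ 4) * ∫⁻ z : ℝ × ℝ, ‖Ext G z‖ₑ ^ 4) {l a M : ℕ}
    (h : M ≤ a + l) : QB ((4 : ℝ) ^ l)⁻¹ (4 ^ a) (4 ^ M) (C * ((4 : ℝ) ^ l) ^ 4 * 4 * π) := by
  intro G hG
  have hG1 : Cls 1 G := Cls.mono (inv_le_one_of_one_le₀ (one_le_pow₀ (by norm_num))) hG
  have h1 : ∀ γ : ℝ, fn 0 1 (4 ^ a) G γ ≤
      ENNReal.ofReal (C * (1 + |γ| / 4 ^ a) ^ 4) * ∫⁻ z : ℝ × ℝ, ‖Ext G z‖ₑ ^ 4 := fun γ =>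
    hBS G hG1 (4 ^ a) (one_le_pow₀ (by norm_num)) γ
  have hR : (0 : ℝ) < 4 ^ M := by positivity
  have h2 : ∀ γ : ℝ, psi3 (γ / 4 ^ M) * (C * (1 + |γ| / 4 ^ a) ^ 4) ≤
      C * ((4 : ℝ) ^ l) ^ 4 * 4 * (1 + (γ / 4 ^ M) ^ 2)⁻¹ := by
    intro γ
    have h3 : 1 + |γ| / 4 ^ a ≤ 4 ^ l * (1 + |γ / 4 ^ M|) := by
      have h4 : |γ| / 4 ^ a ≤ 4 ^ l * |γ / 4 ^ M| := by
        rw [abs_div, abs_of_pos hR, div_le_iff₀ (by positivity)]
        have h5 : (4 : ℝ) ^ M ≤ 4 ^ l * 4 ^ a := by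
          rw [← pow_add]
          exact pow_le_pow_right₀ (by norm_num) (by omega)
        have h6 : 4 ^ l * (|γ| / 4 ^ M) * 4 ^ a = |γ| * ((4 ^ l * 4 ^ a) / 4 ^ M) := by ring
        rw [h6]
        have h7 : (1 : ℝ) ≤ (4 ^ l * 4 ^ a) / 4 ^ M := by
          rw [one_le_div hR]; exact h5
        nlinarith [abs_nonneg γ]
      have h5 : (1 : ℝ) ≤ 4 ^ l := one_le_pow₀ (by norm_num)
      nlinarith
    have h4 : (1 + |γ| / 4 ^ a) ^ 4 ≤ ((4 : ℝ) ^ l) ^ 4 * (1 + |γ / 4 ^ M|) ^ 4 := by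
      rw [← mul_pow]
      exact pow_le_pow_left₀ (by positivity) h3 4
    have h5 : 0 ≤ psi3 (γ / 4 ^ M) := by unfold psi3; positivity
    calc psi3 (γ / 4 ^ M) * (C * (1 + |γ| / 4 ^ a) ^ 4)
        ≤ psi3 (γ / 4 ^ M) * (C * (((4 : ℝ) ^ l) ^ 4 * (1 + |γ / 4 ^ M|) ^ 4)) := by gcongr
      _ = C * ((4 : ℝ) ^ l) ^ 4 * (psi3 (γ / 4 ^ M) * (1 + |γ / 4 ^ M|) ^ 4) := by ring
      _ ≤ C * ((4 : ℝ) ^ l) ^ 4 * (4 * (1 + (γ / 4 ^ M) ^ 2)⁻¹) :=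
          mul_le_mul_of_nonneg_left (psi3_bd _) (by positivity)
      _ = _ := by ring
  set I : ℝ≥0∞ := ∫⁻ z : ℝ × ℝ, ‖Ext G z‖ₑ ^ 4 with hI
  rw [TT_eq]
  have hm : Measurable (fun γ : ℝ => ENNReal.ofReal (C * ((4 : ℝ) ^ l) ^ 4 * 4 *
      (1 + (γ / 4 ^ M) ^ 2)⁻¹)) := by
    fun_prop
  calc ∫⁻ γ : ℝ, ENNReal.ofReal (psi3 (γ / 4 ^ M)) * fn 0 1 (4 ^ a) G γ
      ≤ ∫⁻ γ : ℝ, ENNReal.ofReal (C * ((4 : ℝ) ^ l) ^ 4 * 4 * (1 + (γ / 4 ^ M) ^ 2)⁻¹) * I := by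
        refine lintegral_mono fun γ => ?_
        calc ENNReal.ofReal (psi3 (γ / 4 ^ M)) * fn 0 1 (4 ^ a) G γ
            ≤ ENNReal.ofReal (psi3 (γ / 4 ^ M)) *
              (ENNReal.ofReal (C * (1 + |γ| / 4 ^ a) ^ 4) * I) := by
              gcongr
              exact h1 γ
          _ = ENNReal.ofReal (psi3 (γ / 4 ^ M) * (C * (1 + |γ| / 4 ^ a) ^ 4)) * I := by
              rw [ENNReal.ofReal_mul (p := psi3 (γ / 4 ^ M)) (by unfold psi3; positivity),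
                mul_assoc]
          _ ≤ _ := mul_le_mul_left (ENNReal.ofReal_le_ofReal (h2 γ)) I
    _ = (∫⁻ γ : ℝ, ENNReal.ofReal (C * ((4 : ℝ) ^ l) ^ 4 * 4 * (1 + (γ / 4 ^ M) ^ 2)⁻¹)) * I :=
        lintegral_mul_const _ hm
    _ = ENNReal.ofReal (C * ((4 : ℝ) ^ l) ^ 4 * 4 * π * 4 ^ M) * I := by
        have h3 : ∀ γ : ℝ, ENNReal.ofReal (C * ((4 : ℝ) ^ l) ^ 4 * 4 * (1 + (γ / 4 ^ M) ^ 2)⁻¹) =
            ENNReal.ofReal (C * ((4 : ℝ) ^ l) ^ 4 * 4) *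
              ENNReal.ofReal ((1 + (γ / 4 ^ M) ^ 2)⁻¹) := fun γ =>
          ENNReal.ofReal_mul (by positivity)
        simp_rw [h3]
        rw [lintegral_const_mul' _ _ ENNReal.ofReal_ne_top, lint_inv hR,
          ← ENNReal.ofReal_mul (by positivity)]
        congr 2
        ring

theorem QB_mono {δ ρ R C C' : ℝ} (hR : 0 ≤ R) (h : C ≤ C') (hB : QB δ ρ R C) : QB δ ρ R C' := by
  intro G hG
  refine (hB G hG).trans ?_
  gcongr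

theorem exists_l (C ε : ℝ) (hε : 0 < ε) : ∃ l : ℕ, 5 ≤ l ∧
    C * (2 * l + 4) ≤ (4 : ℝ) ^ (ε * ((l : ℝ) - 4)) := by
  have h1 : Tendsto (fun x : ℝ => C * (2 * x + 4) / (4 : ℝ) ^ (ε * (x - 4))) atTop (𝓝 0) := by
    have h2 : Tendsto (fun x : ℝ => x ^ (1 : ℝ) * Real.exp (-(ε * Real.log 4) * x)) atTop (𝓝 0) :=
      tendsto_rpow_mul_exp_neg_mul_atTop_nhds_zero 1 _
        (mul_pos hε (Real.log_pos (by norm_num)))
    have h3 : Tendsto (fun x : ℝ => x ^ (0 : ℝ) * Real.exp (-(ε * Real.log 4) * x)) atTop (𝓝 0) :=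
      tendsto_rpow_mul_exp_neg_mul_atTop_nhds_zero 0 _
        (mul_pos hε (Real.log_pos (by norm_num)))
    have h4 := (h2.const_mul (C * 2 * (4 : ℝ) ^ (ε * 4))).add
      (h3.const_mul (C * 4 * (4 : ℝ) ^ (ε * 4)))
    rw [mul_zero, mul_zero, add_zero] at h4
    refine h4.congr fun x => ?_
    have h5 : (4 : ℝ) ^ (ε * (x - 4)) = Real.exp (ε * Real.log 4 * x) / (4 : ℝ) ^ (ε * 4) := by
      rw [Real.rpow_def_of_pos (by norm_num), Real.rpow_def_of_pos (by norm_num), ← Real.exp_sub]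
      congr 1
      ring
    have h6 : Real.exp (-(ε * Real.log 4) * x) = (Real.exp (ε * Real.log 4 * x))⁻¹ := by
      rw [← Real.exp_neg]
      congr 1
      ring
    rw [h5, h6, Real.rpow_one, Real.rpow_zero]
    have h7 : Real.exp (ε * Real.log 4 * x) ≠ 0 := (Real.exp_pos _).ne'
    have h8 : (4 : ℝ) ^ (ε * 4) ≠ 0 := (Real.rpow_pos_of_pos (by norm_num) _).ne'
    field_simp
  have h2 : ∀ᶠ x : ℝ in atTop, C * (2 * x + 4) / (4 : ℝ) ^ (ε * (x - 4)) < 1 :=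
    h1.eventually (gt_mem_nhds one_pos)
  have h3 : ∀ᶠ l : ℕ in atTop, C * (2 * (l : ℝ) + 4) / (4 : ℝ) ^ (ε * ((l : ℝ) - 4)) < 1 :=
    tendsto_natCast_atTop_atTop.eventually h2
  obtain ⟨l, hl, hl5⟩ := (h3.and (eventually_ge_atTop 5)).exists
  refine ⟨l, hl5, ?_⟩
  have h4 : (0 : ℝ) < (4 : ℝ) ^ (ε * ((l : ℝ) - 4)) := Real.rpow_pos_of_pos (by norm_num) _
  rw [div_lt_one h4] at hl
  exact hl.le

theorem s_fin : S_rec → S_bs → S_fin := by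
  rintro ⟨C, hC, hrec⟩ ⟨Cb, hCb, hBS⟩ ε hε
  obtain ⟨l, hl5, hl⟩ := exists_l C ε hε
  obtain ⟨B, hB⟩ : ∃ B : ℝ, B = Cb * ((4 : ℝ) ^ l) ^ 4 * 4 * π := ⟨_, rfl⟩
  have hB0 : 0 < B := by rw [hB]; positivity
  refine ⟨l, B, by omega, hB0, ?_⟩
  have key : ∀ g : ℕ, ∀ a M : ℕ, M ≤ a + g →
      QB ((4 : ℝ) ^ l)⁻¹ (4 ^ a) (4 ^ M) (B * (4 : ℝ) ^ (ε * (g : ℝ))) := by
    intro g
    induction g using Nat.strong_induction_on with
    | _ g ih =>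
      intro a M hM
      have hpos : ∀ t : ℝ, (0 : ℝ) < (4 : ℝ) ^ t := fun t => Real.rpow_pos_of_pos (by norm_num) _
      by_cases h : M ≤ a + l
      · refine QB_mono (by positivity) ?_ (base hCb hBS h)
        rw [← hB]
        have h1 : (1 : ℝ) ≤ (4 : ℝ) ^ (ε * (g : ℝ)) :=
          Real.one_le_rpow (by norm_num) (by positivity)
        nlinarith
      · have hg : l ≤ g := by omega
        have h1 := hrec l a M (B * (4 : ℝ) ^ (ε * ((g - (l - 4) : ℕ) : ℝ))) (by omega) (by omega)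
          (by have := hpos (ε * ((g - (l - 4) : ℕ) : ℝ)); positivity) (by
            intro k hk
            exact ih (g - (l - 4)) (by omega) _ _ (by omega))
        refine QB_mono (by positivity) ?_ h1
        have h2 : ((g - (l - 4) : ℕ) : ℝ) = (g : ℝ) - ((l : ℝ) - 4) := by
          rw [Nat.cast_sub (by omega), Nat.cast_sub (by omega)]
          norm_num
        have h3 : (4 : ℝ) ^ (ε * ((l : ℝ) - 4)) * (4 : ℝ) ^ (ε * ((g : ℝ) - ((l : ℝ) - 4))) =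
            (4 : ℝ) ^ (ε * (g : ℝ)) := by
          rw [← Real.rpow_add (by norm_num)]
          congr 1
          ring
        rw [h2, ← h3]
        calc C * (2 * l + 4) * (B * (4 : ℝ) ^ (ε * ((g : ℝ) - ((l : ℝ) - 4))))
            ≤ (4 : ℝ) ^ (ε * ((l : ℝ) - 4)) * (B * (4 : ℝ) ^ (ε * ((g : ℝ) - ((l : ℝ) - 4)))) := by
              apply mul_le_mul_of_nonneg_right hl
              have := hpos (ε * ((g : ℝ) - ((l : ℝ) - 4)))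
              positivity
          _ = _ := by ring
  intro M
  have h1 := key M 0 M (by omega)
  rw [pow_zero] at h1
  exact h1

end Pool.Agent.T9h89.LG
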