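import Pool.Agent.T9h44.LG.Spec

/-!
# Project LG: (ORT) orthogonality in time. Author: helper89.
-/

set_option autoImplicit false

namespace Pool.Agent.T9h89.LG

open MeasureTheory Real Pool.Agent.T9h44.LG
open scoped ENNReal ComplexConjugate

theorem norm_ee (x : ℝ) : ‖ee x‖ = 1 := by
  rw [ee]; exact Complex.norm_exp_ofReal_mul_I _

theorem ee_add (x y : ℝ) : ee (x + y) = ee x * ee y := by
  rw [ee, ee, ee, ← Complex.exp_add]
  congr 1
  push_cast
  ring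

theorem conj_ee (x : ℝ) : conj (ee x) = ee (-x) := by
  rw [ee, ee, ← Complex.exp_conj]
  congr 1
  simp only [map_mul, Complex.conj_ofReal, Complex.conj_I]
  push_cast
  ring

theorem continuous_ee : Continuous ee := by
  unfold ee
  fun_prop

theorem psi3_integrable : Integrable psi3 := by
  refine integrable_inv_one_add_sq.mono ?_ ?_
  · refine (Continuous.measurable ?_).aestronglyMeasurable
    unfold psi3
    refine Continuous.inv₀ (by fun_prop) fun x => ?_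
    positivity
  · refine Filter.Eventually.of_forall fun x => ?_
    rw [norm_of_nonneg (by unfold psi3; positivity), norm_of_nonneg (by positivity)]
    unfold psi3
    apply inv_anti₀ (by positivity)
    have h1 : (1 : ℝ) ≤ 1 + x ^ 2 := by nlinarith [sq_nonneg x]
    calc 1 + x ^ 2 = (1 + x ^ 2) ^ 1 := (pow_one _).symm
      _ ≤ (1 + x ^ 2) ^ 3 := pow_le_pow_right₀ h1 (by norm_num)

theorem Kap.integrable {κ κh : ℝ → ℝ} (h : Kap κ κh) : Integrable κ := by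
  obtain ⟨hc, -, h0, ⟨C, hC⟩, -⟩ := h
  refine (psi3_integrable.const_mul C).mono hc.aestronglyMeasurable ?_
  refine Filter.Eventually.of_forall fun x => ?_
  rw [norm_of_nonneg (h0 x)]
  exact (hC x).trans (le_abs_self _)

theorem Kap.integrable_div {κ κh : ℝ → ℝ} (h : Kap κ κh) {R : ℝ} (hR : 0 < R) :
    Integrable (fun γ => κ (γ / R)) := by
  have := (integrable_comp_mul_left_iff κ (inv_ne_zero hR.ne')).2 (Kap.integrable h)
  refine this.congr (Filter.Eventually.of_forall fun γ => ?_)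
  show κ (R⁻¹ * γ) = κ (γ / R)
  rw [div_eq_inv_mul]

/-- the kernel -/
theorem Kap.kernel {κ κh : ℝ → ℝ} (h : Kap κ κh) {R : ℝ} (hR : 0 < R) (t : ℝ) :
    ∫ γ : ℝ, ((κ (γ / R) : ℝ) : ℂ) * ee (γ * t) = ((R * κh (-(R * t)) : ℝ) : ℂ) := by
  obtain ⟨-, -, -, -, -, -, -, -, h1⟩ := h
  have h2 := h1 (-(R * t))
  have h3 := Measure.integral_comp_div (fun x : ℝ => ee (-(x * -(R * t))) * ((κ x : ℝ) : ℂ)) R
  rw [h2, abs_of_pos hR] at h3
  rw [Complex.ofReal_mul, ← Complex.real_smul, ← h3]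
  congr 1
  funext γ
  rw [mul_comm]
  congr 2
  field_simp

section F

variable (φ : ℝ × ℝ → ℝ)

/-- the function of the time -/
noncomputable def Ft (a : ℝ × ℝ → ℂ) (γ : ℝ) : ℂ := ∫ ζ, ee (γ * φ ζ) * a ζ

variable {φ}

theorem int_mul (hφ : Measurable φ) {a : ℝ × ℝ → ℂ} (ha : Integrable a) (γ : ℝ) :
    Integrable (fun ζ => ee (γ * φ ζ) * a ζ) := by
  refine ha.bdd_mul (c := 1) ?_ (Filter.Eventually.of_forall fun ζ => (norm_ee _).le)
  exact (continuous_ee.measurable.comp (hφ.const_mul γ)).aestronglyMeasurable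

theorem Ft_cont (hφ : Measurable φ) {a : ℝ × ℝ → ℂ} (ha : Integrable a) :
    Continuous (Ft φ a) := by
  refine continuous_of_dominated (bound := fun ζ => ‖a ζ‖) (fun γ => (int_mul hφ ha γ).1)
    (fun γ => Filter.Eventually.of_forall fun ζ => ?_) ha.norm
    (Filter.Eventually.of_forall fun ζ => ?_)
  · rw [norm_mul, norm_ee, one_mul]
  · have := continuous_ee
    fun_prop

theorem Ft_bd (a : ℝ × ℝ → ℂ) (γ : ℝ) : ‖Ft φ a γ‖ ≤ ∫ ζ, ‖a ζ‖ := by
  refine (norm_integral_le_integral_norm _).trans (le_of_eq ?_)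
  congr 1
  funext ζ
  rw [norm_mul, norm_ee, one_mul]

variable {κ κh : ℝ → ℝ} (hκ : Kap κ κh) {R : ℝ} (hR : 0 < R)

include hκ hR

theorem int_kF (hφ : Measurable φ) {a b : ℝ × ℝ → ℂ} (ha : Integrable a) (hb : Integrable b) :
    Integrable (fun γ => ((κ (γ / R) : ℝ) : ℂ) * (Ft φ a γ * conj (Ft φ b γ))) := by
  refine (Kap.integrable_div hκ hR).ofReal.mul_bdd (c := (∫ ζ, ‖a ζ‖) * ∫ ζ, ‖b ζ‖) ?_
    (Filter.Eventually.of_forall fun γ => ?_)
  · have h1 := Ft_cont hφ ha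
    have h2 := Ft_cont hφ hb
    exact (h1.mul (Complex.continuous_conj.comp h2)).aestronglyMeasurable
  · rw [norm_mul, RCLike.norm_conj]
    exact mul_le_mul (Ft_bd a γ) (Ft_bd b γ) (norm_nonneg _)
      (integral_nonneg fun _ => norm_nonneg _)

theorem gram (hφ : Measurable φ) {a b : ℝ × ℝ → ℂ} (ha : Integrable a) (hb : Integrable b) :
    ∫ γ : ℝ, ((κ (γ / R) : ℝ) : ℂ) * (Ft φ a γ * conj (Ft φ b γ)) =
      ∫ z : (ℝ × ℝ) × (ℝ × ℝ), ((R * κh (-(R * (φ z.1 - φ z.2))) : ℝ) : ℂ) *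
        (a z.1 * conj (b z.2)) := by
  have hAB : Integrable (fun z : (ℝ × ℝ) × (ℝ × ℝ) => a z.1 * conj (b z.2)) := by
    have hb' : Integrable (fun ζ => conj (b ζ)) := hb.congr' (by
      exact (Complex.continuous_conj.comp_aestronglyMeasurable hb.1)) (Filter.Eventually.of_forall
        fun ζ => (RCLike.norm_conj _).symm)
    exact ha.mul_prod hb'
  have h1 : ∀ γ : ℝ, Ft φ a γ * conj (Ft φ b γ) =
      ∫ z : (ℝ × ℝ) × (ℝ × ℝ), ee (γ * (φ z.1 - φ z.2)) * (a z.1 * conj (b z.2)) := by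
    intro γ
    unfold Ft
    rw [← integral_conj, ← integral_prod_mul]
    congr 1
    funext z
    rw [map_mul, conj_ee, show γ * (φ z.1 - φ z.2) = γ * φ z.1 + -(γ * φ z.2) by ring, ee_add]
    ring
  have h2 : ∀ γ : ℝ, ((κ (γ / R) : ℝ) : ℂ) * (Ft φ a γ * conj (Ft φ b γ)) =
      ∫ z : (ℝ × ℝ) × (ℝ × ℝ), ((κ (γ / R) : ℝ) : ℂ) *
        (ee (γ * (φ z.1 - φ z.2)) * (a z.1 * conj (b z.2))) := by
    intro γ
    rw [h1, ← integral_const_mul]
  simp_rw [h2]
  rw [integral_integral_swap]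
  · congr 1
    funext z
    rw [← Kap.kernel hκ hR (φ z.1 - φ z.2), ← integral_mul_const]
    congr 1
    funext γ
    ring
  · have h3 : Integrable (fun w : ℝ × ((ℝ × ℝ) × (ℝ × ℝ)) =>
        ((κ (w.1 / R) : ℝ) : ℂ) * (a w.2.1 * conj (b w.2.2)))
        ((volume : Measure ℝ).prod (volume : Measure ((ℝ × ℝ) × (ℝ × ℝ)))) :=
      (Kap.integrable_div hκ hR).ofReal.mul_prod hAB
    have h4 := h3.bdd_mul (c := 1)
      (f := fun w : ℝ × ((ℝ × ℝ) × (ℝ × ℝ)) => ee (w.1 * (φ w.2.1 - φ w.2.2))) ?_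
      (Filter.Eventually.of_forall fun w => (norm_ee _).le)
    · refine h4.congr (Filter.Eventually.of_forall fun w => ?_)
      simp only [Function.uncurry]
      ring
    · refine (continuous_ee.measurable.comp ?_).aestronglyMeasurable
      exact measurable_fst.mul ((hφ.comp (measurable_fst.comp measurable_snd)).sub
        (hφ.comp (measurable_snd.comp measurable_snd)))

theorem gram_zero (hφ : Measurable φ) {a b : ℝ × ℝ → ℂ} (ha : Integrable a) (hb : Integrable b)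
    (h : ¬ ∃ ζ ζ', a ζ ≠ 0 ∧ b ζ' ≠ 0 ∧ |φ ζ - φ ζ'| < 1 / R) :
    ∫ γ : ℝ, ((κ (γ / R) : ℝ) : ℂ) * (Ft φ a γ * conj (Ft φ b γ)) = 0 := by
  rw [gram hκ hR hφ ha hb]
  refine integral_eq_zero_of_ae (Filter.Eventually.of_forall fun z => ?_)
  show ((R * κh (-(R * (φ z.1 - φ z.2))) : ℝ) : ℂ) * (a z.1 * conj (b z.2)) = 0
  by_cases h1 : a z.1 = 0
  · rw [h1, zero_mul, mul_zero]
  by_cases h2 : b z.2 = 0
  · rw [h2, map_zero, mul_zero, mul_zero]
  have h3 : 1 / R ≤ |φ z.1 - φ z.2| := by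
    by_contra h3
    push Not at h3
    exact h ⟨_, _, h1, h2, h3⟩
  have h4 : 1 ≤ |-(R * (φ z.1 - φ z.2))| := by
    rw [abs_neg, abs_mul, abs_of_pos hR]
    rw [div_le_iff₀ hR] at h3
    linarith
  rw [hκ.2.2.2.2.2.1 _ h4, mul_zero, Complex.ofReal_zero, zero_mul]

end F

theorem s_ort : S_ort := by
  classical
  intro κ κh hκ ι _ a φ R M hR hφ ha hM
  set F : ι → ℝ → ℂ := fun p => Ft φ (a p) with hF
  have hFc : ∀ p, Continuous (F p) := fun p => Ft_cont hφ (ha p)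
  have h0 : ∀ x, 0 ≤ κ x := hκ.2.2.1
  set I : ι → ℝ := fun p => ∫ γ, κ (γ / R) * ‖F p γ‖ ^ 2 with hI
  have hint : ∀ p p', Integrable (fun γ => ((κ (γ / R) : ℝ) : ℂ) * (F p γ * conj (F p' γ))) :=
    fun p p' => int_kF hκ hR hφ (ha p) (ha p')
  have hsqc : ∀ (p : ι) (γ : ℝ), ((κ (γ / R) : ℝ) : ℂ) * (F p γ * conj (F p γ)) =
      ((κ (γ / R) * ‖F p γ‖ ^ 2 : ℝ) : ℂ) := by
    intro p γ
    rw [Complex.mul_conj, Complex.normSq_eq_norm_sq]
    push_cast
    ring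
  have hintI : ∀ p, Integrable (fun γ => κ (γ / R) * ‖F p γ‖ ^ 2) := by
    intro p
    have := (hint p p).re
    refine this.congr (Filter.Eventually.of_forall fun γ => ?_)
    show (((κ (γ / R) : ℝ) : ℂ) * (F p γ * conj (F p γ))).re = _
    rw [hsqc, Complex.ofReal_re]
  have hI0 : ∀ p, 0 ≤ I p := fun p => integral_nonneg fun γ => mul_nonneg (h0 _) (by positivity)
  have hlin : ∀ G : ℝ → ℂ, Integrable (fun γ => κ (γ / R) * ‖G γ‖ ^ 2) →
      ∫⁻ γ : ℝ, ENNReal.ofReal (κ (γ / R)) * ‖G γ‖ₑ ^ 2 =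
        ENNReal.ofReal (∫ γ, κ (γ / R) * ‖G γ‖ ^ 2) := by
    intro G hG
    rw [ofReal_integral_eq_lintegral_ofReal hG
      (Filter.Eventually.of_forall fun γ => mul_nonneg (h0 _) (by positivity))]
    congr 1
    funext γ
    rw [ENNReal.ofReal_mul (h0 _), ENNReal.ofReal_pow (norm_nonneg _), ofReal_norm]
  -- the sum
  set S : ℝ → ℂ := fun γ => ∑ p, F p γ with hS
  have hSS : ∀ γ, ((κ (γ / R) * ‖S γ‖ ^ 2 : ℝ) : ℂ) =
      ∑ p, ∑ p', ((κ (γ / R) : ℝ) : ℂ) * (F p γ * conj (F p' γ)) := by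
    intro γ
    have h1 : ((‖S γ‖ ^ 2 : ℝ) : ℂ) = S γ * conj (S γ) := by
      rw [Complex.mul_conj, Complex.normSq_eq_norm_sq]
    rw [Complex.ofReal_mul, h1, hS]
    simp only [map_sum]
    rw [Finset.sum_mul_sum, Finset.mul_sum]
    refine Finset.sum_congr rfl fun p _ => ?_
    rw [Finset.mul_sum]
  have hintS : Integrable (fun γ => κ (γ / R) * ‖S γ‖ ^ 2) := by
    have h1 : Integrable (fun γ => ∑ p, ∑ p', ((κ (γ / R) : ℝ) : ℂ) * (F p γ * conj (F p' γ))) :=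
      integrable_finsetSum _ fun p _ => integrable_finsetSum _ fun p' _ => hint p p'
    refine h1.re.congr (Filter.Eventually.of_forall fun γ => ?_)
    show (∑ p, ∑ p', ((κ (γ / R) : ℝ) : ℂ) * (F p γ * conj (F p' γ))).re = _
    rw [← hSS, Complex.ofReal_re]
  have hsum : ∫ γ, κ (γ / R) * ‖S γ‖ ^ 2 =
      ∑ p, ∑ p', (∫ γ, ((κ (γ / R) : ℝ) : ℂ) * (F p γ * conj (F p' γ))).re := by
    have h1 : ((∫ γ, κ (γ / R) * ‖S γ‖ ^ 2 : ℝ) : ℂ) =
        ∑ p, ∑ p', ∫ γ, ((κ (γ / R) : ℝ) : ℂ) * (F p γ * conj (F p' γ)) := by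
      rw [← integral_complex_ofReal]
      have h2 : ∀ γ, (((κ (γ / R) * ‖S γ‖ ^ 2 : ℝ)) : ℂ) =
        ∑ p, ∑ p', ((κ (γ / R) : ℝ) : ℂ) * (F p γ * conj (F p' γ)) := hSS
      calc ∫ γ, (((κ (γ / R) * ‖S γ‖ ^ 2 : ℝ)) : ℂ)
          = ∫ γ, ∑ p, ∑ p', ((κ (γ / R) : ℝ) : ℂ) * (F p γ * conj (F p' γ)) := by
            congr 1; funext γ; exact h2 γ
        _ = ∑ p, ∫ γ, ∑ p', ((κ (γ / R) : ℝ) : ℂ) * (F p γ * conj (F p' γ)) :=
            integral_finsetSum _ fun p _ => integrable_finsetSum _ fun p' _ => hint p p'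
        _ = _ := Finset.sum_congr rfl fun p _ => integral_finsetSum _ fun p' _ => hint p p'
    have h2 := congrArg Complex.re h1
    rw [Complex.ofReal_re, Complex.re_sum] at h2
    rw [h2]
    exact Finset.sum_congr rfl fun p _ => Complex.re_sum _ _
  -- the relation
  set rel : ι → ι → Prop := fun p p' =>
    ∃ ζ ζ', a p ζ ≠ 0 ∧ a p' ζ' ≠ 0 ∧ |φ ζ - φ ζ'| < 1 / R with hrel
  have hsymm : ∀ p p', rel p p' ↔ rel p' p := by
    intro p p'
    constructor
    · rintro ⟨ζ, ζ', h1, h2, h3⟩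
      exact ⟨ζ', ζ, h2, h1, by rwa [abs_sub_comm]⟩
    · rintro ⟨ζ, ζ', h1, h2, h3⟩
      exact ⟨ζ', ζ, h2, h1, by rwa [abs_sub_comm]⟩
  have hD : ∀ p p', (∫ γ, ((κ (γ / R) : ℝ) : ℂ) * (F p γ * conj (F p' γ))).re ≤
      if rel p p' then (I p + I p') / 2 else 0 := by
    intro p p'
    split_ifs with h
    · have h1 : (∫ γ, ((κ (γ / R) : ℝ) : ℂ) * (F p γ * conj (F p' γ))).re =
          ∫ γ, (((κ (γ / R) : ℝ) : ℂ) * (F p γ * conj (F p' γ))).re :=
        (integral_re (hint p p')).symm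
      have h2 : (I p + I p') / 2 =
          ∫ γ, (κ (γ / R) * ‖F p γ‖ ^ 2 + κ (γ / R) * ‖F p' γ‖ ^ 2) / 2 := by
        rw [integral_div, integral_add (hintI p) (hintI p')]
      rw [h1, h2]
      refine integral_mono (hint p p').re (((hintI p).add (hintI p')).div_const 2) fun γ => ?_
      show (((κ (γ / R) : ℝ) : ℂ) * (F p γ * conj (F p' γ))).re ≤ _
      rw [Complex.re_ofReal_mul]
      have h3 : (F p γ * conj (F p' γ)).re ≤ ‖F p γ‖ * ‖F p' γ‖ := by
        refine (Complex.re_le_norm _).trans (le_of_eq ?_)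
        rw [norm_mul, RCLike.norm_conj]
      have h4 : ‖F p γ‖ * ‖F p' γ‖ ≤ (‖F p γ‖ ^ 2 + ‖F p' γ‖ ^ 2) / 2 := by
        nlinarith [sq_nonneg (‖F p γ‖ - ‖F p' γ‖)]
      calc κ (γ / R) * (F p γ * conj (F p' γ)).re
          ≤ κ (γ / R) * ((‖F p γ‖ ^ 2 + ‖F p' γ‖ ^ 2) / 2) :=
            mul_le_mul_of_nonneg_left (h3.trans h4) (h0 _)
        _ = _ := by ring
    · rw [gram_zero hκ hR hφ (ha p) (ha p') h, Complex.zero_re]
  have hfin : ∑ p, ∑ p', (if rel p p' then (I p + I p') / 2 else 0) ≤ M * ∑ p, I p := by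
    have h1 : ∑ p, ∑ p', (if rel p p' then (I p + I p') / 2 else 0) =
        ∑ p, ∑ p', (if rel p p' then I p else 0) := by
      have h2 : ∀ p p', (if rel p p' then (I p + I p') / 2 else 0) =
          (if rel p p' then I p else 0) / 2 + (if rel p p' then I p' else 0) / 2 := by
        intro p p'
        split_ifs <;> ring
      have h3 : ∑ p, ∑ p', (if rel p p' then I p' else 0) =
          ∑ p, ∑ p', (if rel p p' then I p else 0) := by
        rw [Finset.sum_comm]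
        refine Finset.sum_congr rfl fun p _ => Finset.sum_congr rfl fun p' _ => ?_
        exact if_congr (hsymm p' p) rfl rfl
      simp_rw [h2, Finset.sum_add_distrib, ← Finset.sum_div]
      rw [h3]
      ring
    rw [h1, Finset.mul_sum]
    refine Finset.sum_le_sum fun p _ => ?_
    rw [← Finset.sum_filter, Finset.sum_const, nsmul_eq_mul]
    refine mul_le_mul_of_nonneg_right ?_ (hI0 p)
    have h2 := hM p
    have h3 : {p' | ∃ ζ ζ', a p ζ ≠ 0 ∧ a p' ζ' ≠ 0 ∧ |φ ζ - φ ζ'| < 1 / R} =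
        ((Finset.univ.filter fun p' => rel p p' : Finset ι) : Set ι) := by
      ext p'
      simp [hrel]
    rw [h3, Set.ncard_coe_finset] at h2
    exact_mod_cast h2
  have e1 : ∀ γ, ∑ p, ∫ ζ, ee (γ * φ ζ) * a p ζ = S γ := fun γ => rfl
  have e2 : ∀ p γ, ∫ ζ, ee (γ * φ ζ) * a p ζ = F p γ := fun p γ => rfl
  simp_rw [e1, e2]
  rw [hlin S hintS, hsum]
  simp_rw [fun p => hlin (F p) (hintI p)]
  rw [← ENNReal.ofReal_sum_of_nonneg fun p _ => hI0 p, ← ENNReal.ofReal_natCast,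
    ← ENNReal.ofReal_mul (Nat.cast_nonneg _)]
  apply ENNReal.ofReal_le_ofReal
  exact (Finset.sum_le_sum fun p _ => Finset.sum_le_sum fun p' _ => hD p p').trans hfin

end Pool.Agent.T9h89.LG
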